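import Mathlib
import Pool.Agent.H50.Dbl

set_option autoImplicit false

namespace Pool.Agent.Results.MP_c1d873_al.Countable

/-- Q2 has a negative answer: it is false that for every regularity `k ≥ 1` (or `∞`) every compact
connected smooth `n`-manifold `M` (boundary allowed) has a countable `C^k` detecting group. -/
theorem result :
    ¬ (∀ (k : ℕ∞), 1 ≤ k →
  ∀ (n : ℕ) [NeZero n] (M : Type) [TopologicalSpace M] [T2Space M] [CompactSpace M]
    [ConnectedSpace M] [ChartedSpace (EuclideanHalfSpace n) M]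
    [IsManifold (modelWithCornersEuclideanHalfSpace n) ((⊤ : ℕ∞) : WithTop ℕ∞) M],
  ∃ (G : Type) (_ : Group G), Countable G ∧
    ∀ (N : Type) [TopologicalSpace N] [T2Space N] [CompactSpace N] [ConnectedSpace N]
      [ChartedSpace (EuclideanHalfSpace n) N]
      [IsManifold (modelWithCornersEuclideanHalfSpace n) ((⊤ : ℕ∞) : WithTop ℕ∞) N],
      ((∃ ρ : G →* Equiv.Perm N, Function.Injective ρ ∧
          ∀ g : G, ContMDiff (modelWithCornersEuclideanHalfSpace n)
            (modelWithCornersEuclideanHalfSpace n) (k : WithTop ℕ∞) (ρ g)) ↔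
        Nonempty (Diffeomorph (modelWithCornersEuclideanHalfSpace n)
          (modelWithCornersEuclideanHalfSpace n) M N (k : WithTop ℕ∞)))) := by
  intro H
  obtain ⟨G, iG, -, hG⟩ := H 1 le_rfl 1 (Set.Icc (0 : ℝ) 1)
  obtain ⟨ρ, hi, hs⟩ := (hG (Set.Icc (0 : ℝ) 1)).2 ⟨Diffeomorph.refl _ _ _⟩
  obtain ⟨σ, hσ, hc⟩ := Pool.Agent.H50.Dbl.action G ρ hi hs
  let _ := Pool.Agent.H50.Dbl.cs
  have _ := Pool.Agent.H50.Dbl.mani
  obtain ⟨e⟩ := (hG Pool.Agent.H50.Dbl.N).1 ⟨σ, hσ, hc⟩
  exact Pool.Agent.H50.Dbl.no_inj (fun x => (e.symm x : ℝ))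
    (continuous_subtype_val.comp e.symm.continuous)
    (Subtype.val_injective.comp e.symm.injective)

end Pool.Agent.Results.MP_c1d873_al.Countable
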